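import Pool.Agent.Helper39.Uct.Goals2

/-!
# A nonzero C*-algebra with a standard identity has a nonzero abelian element
-/

open scoped ComplexOrder

namespace Pool.Agent.Helper78.Uct

open Pool.Agent.Helper39.Uct

section

variable {D : Type} [NonUnitalCStarAlgebra D]

/-- The hereditary subalgebra `ann (ann h)`. -/
def Zs (h : D) : NonUnitalStarSubalgebra ℂ D where
  carrier := {w | ∀ u : D, h * u = 0 → w * u = 0 ∧ star w * u = 0}
  add_mem' := by
    intro a b ha hb u hu
    have h1 := ha u hu
    have h2 := hb u hu
    constructor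
    · rw [add_mul, h1.1, h2.1, add_zero]
    · rw [star_add, add_mul, h1.2, h2.2, add_zero]
  zero_mem' := by
    intro u _
    simp
  mul_mem' := by
    intro a b ha hb u hu
    have h1 := ha u hu
    have h2 := hb u hu
    constructor
    · rw [mul_assoc, h2.1, mul_zero]
    · rw [star_mul, mul_assoc, h1.2, mul_zero]
  smul_mem' := by
    intro c a ha u hu
    have h1 := ha u hu
    constructor
    · rw [smul_mul_assoc, h1.1, smul_zero]
    · rw [star_smul, smul_mul_assoc, h1.2, smul_zero]
  star_mem' := by
    intro a ha u hu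
    have h1 := ha u hu
    exact ⟨h1.2, by rw [star_star]; exact h1.1⟩

lemma mem_Zs {h w : D} : w ∈ Zs h ↔ ∀ u : D, h * u = 0 → w * u = 0 ∧ star w * u = 0 := Iff.rfl

lemma isClosed_Zs (h : D) : IsClosed ((Zs h : NonUnitalStarSubalgebra ℂ D) : Set D) := by
  have : ((Zs h : NonUnitalStarSubalgebra ℂ D) : Set D) =
      ⋂ (u : D) (_ : h * u = 0), ({w | w * u = 0} ∩ {w | star w * u = 0}) := by
    ext w
    simp only [SetLike.mem_coe, mem_Zs, Set.mem_iInter, Set.mem_inter_iff, Set.mem_setOf_eq]
  rw [this]
  refine isClosed_iInter fun u => isClosed_iInter fun _ => IsClosed.inter ?_ ?_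
  · exact isClosed_eq (by fun_prop) continuous_const
  · exact isClosed_eq (by fun_prop) continuous_const

lemma sandwich_mem_Zs {h : D} (hh : IsSelfAdjoint h) (x : D) : h * x * h ∈ Zs h := by
  intro u hu
  constructor
  · rw [mul_assoc, hu, mul_zero]
  · rw [star_mul, star_mul, hh.star_eq, ← mul_assoc, mul_assoc, hu, mul_zero]

lemma exists_sq_zero (nl : S_NL) (hD : ¬ HasAb D) {h : D} (hh : IsSelfAdjoint h)
    (h0 : h ≠ 0) : ∃ z ∈ Zs h, z ≠ 0 ∧ z * z = 0 := by
  haveI : IsClosed ((Zs h : NonUnitalStarSubalgebra ℂ D) : Set D) := isClosed_Zs h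
  have hex : ∃ x y : D, (h * x * h) * (h * y * h) ≠ (h * y * h) * (h * x * h) := by
    by_contra hcon
    push Not at hcon
    exact hD ⟨h, hh, h0, hcon⟩
  obtain ⟨x, y, hxy⟩ := hex
  obtain ⟨z, hz0, hzz⟩ := nl (Zs h) ⟨⟨h * x * h, sandwich_mem_Zs hh x⟩,
    ⟨h * y * h, sandwich_mem_Zs hh y⟩, by
      intro he
      exact hxy (congrArg Subtype.val he)⟩
  refine ⟨z, z.2, ?_, ?_⟩
  · intro h; exact hz0 (Subtype.ext h)
  · exact congrArg Subtype.val hzz

lemma prod_isChain {M : Type*} [MonoidWithZero M] :
    ∀ l : List M, l.prod ≠ 0 → l.IsChain (fun a b => a * b ≠ 0) := by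
  intro l
  induction l with
  | nil => intro _; exact List.IsChain.nil
  | cons a l ih =>
    intro h
    rw [List.prod_cons] at h
    cases l with
    | nil => exact List.IsChain.singleton a
    | cons b l =>
      rw [List.isChain_cons_cons]
      refine ⟨?_, ih (right_ne_zero_of_mul h)⟩
      intro hab
      apply h
      rw [List.prod_cons, ← mul_assoc, hab, zero_mul]

lemma inr_mul_mem (z : D) (p : Unitization ℂ D) :
    ∃ u : D, (z : Unitization ℂ D) * p = (u : Unitization ℂ D) := by
  refine ⟨((z : Unitization ℂ D) * p).snd, ?_⟩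
  ext
  · simp [Unitization.fst_mul]
  · simp

lemma claim (nl : S_NL) (hD : ¬ HasAb D) (m : ℕ) : ∀ h : D, IsSelfAdjoint h → h ≠ 0 →
    ∃ z : Fin m → D, (∀ i, z i ∈ Zs h) ∧ (∀ i j, j ≤ i → z i * z j = 0) ∧
      (h : Unitization ℂ D) *
        (List.ofFn (fun i => (z i : Unitization ℂ D))).prod ≠ 0 := by
  induction m with
  | zero =>
    intro h _ h0
    refine ⟨Fin.elim0, fun i => i.elim0, fun i => i.elim0, ?_⟩
    simp only [List.ofFn_zero, List.prod_nil, mul_one]
    intro he
    apply h0
    exact Unitization.inr_injective (R := ℂ) (by rw [he, Unitization.inr_zero])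
  | succ m ih =>
    intro h hh h0
    obtain ⟨z, hz, hz0, hzz⟩ := exists_sq_zero nl hD hh h0
    have hsa : IsSelfAdjoint (star z * z) := IsSelfAdjoint.star_mul_self z
    have hne : star z * z ≠ 0 := by
      intro he
      exact hz0 (CStarRing.star_mul_self_eq_zero_iff z |>.mp he)
    obtain ⟨w, hw, hww, hp⟩ := ih (star z * z) hsa hne
    have h1z : star z * z * z = 0 := by rw [mul_assoc, hzz, mul_zero]
    refine ⟨Fin.cons z w, ?_, ?_, ?_⟩
    · intro i
      refine Fin.cases ?_ (fun i => ?_) i
      · simpa using hz
      · simp only [Fin.cons_succ]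
        intro u hu
        have hzu := (hz u hu).1
        exact hw i u (by rw [mul_assoc, hzu, mul_zero])
    · intro i j
      refine Fin.cases ?_ (fun i => ?_) i
      · intro hj
        have : j = 0 := Fin.le_zero_iff'.mp hj
        subst this
        simpa using hzz
      · refine Fin.cases ?_ (fun j => ?_) j
        · intro _
          simp only [Fin.cons_succ, Fin.cons_zero]
          exact (hw i z h1z).1
        · intro hj
          simp only [Fin.cons_succ]
          exact hww i j (by simpa using hj)
    · rw [List.ofFn_succ, List.prod_cons]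
      simp only [Fin.cons_zero, Fin.cons_succ]
      set p := (List.ofFn (fun i => (w i : Unitization ℂ D))).prod with hpdef
      intro he
      obtain ⟨u, hu⟩ := inr_mul_mem z p
      have hhu : h * u = 0 := by
        apply Unitization.inr_injective (R := ℂ)
        rw [Unitization.inr_mul, ← hu, he, Unitization.inr_zero]
      have hsu : star z * u = 0 := (hz u hhu).2
      apply hp
      rw [Unitization.inr_mul, mul_assoc, hu, ← Unitization.inr_mul, hsu, Unitization.inr_zero]

end

theorem ae (nl : S_NL) : S_AE := by
  intro D _ m hnt hstd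
  by_contra hD
  obtain ⟨x, hx⟩ := exists_ne (0 : D)
  have hsa : IsSelfAdjoint (star x * x) := IsSelfAdjoint.star_mul_self x
  have hne : star x * x ≠ 0 := by
    intro he
    exact hx (CStarRing.star_mul_self_eq_zero_iff x |>.mp he)
  obtain ⟨z, -, hz, hp⟩ := claim nl hD m _ hsa hne
  have hs := hstd z
  rw [Finset.sum_eq_single (1 : Equiv.Perm (Fin m))] at hs
  · apply hp
    have h1 : (List.ofFn (fun i => (z i : Unitization ℂ D))).prod = 0 := by
      simpa using hs
    rw [h1, mul_zero]
  · intro σ _ hσ
    have hprod : (List.ofFn (fun i => ((z (σ i) : D) : Unitization ℂ D))).prod = 0 := by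
      by_contra hne'
      have hc := prod_isChain _ hne'
      apply hσ
      have hmono : StrictMono σ := by
        cases m with
        | zero => intro a; exact a.elim0
        | succ m =>
          rw [Fin.strictMono_iff_lt_succ]
          intro i
          by_contra hle
          push Not at hle
          have hzz := hz _ _ hle
          rw [List.isChain_iff_getElem] at hc
          have := hc i.1 (by simp)
          apply this
          simp only [List.getElem_ofFn]
          rw [← Unitization.inr_mul]
          have e1 : (⟨i.1, by omega⟩ : Fin (m + 1)) = i.castSucc := rfl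
          have e2 : (⟨i.1 + 1, by omega⟩ : Fin (m + 1)) = i.succ := rfl
          rw [e1, e2, hzz, Unitization.inr_zero]
      exact Equiv.Perm.ext fun i => by
        have := hmono
        have h2 : (σ : Fin m → Fin m) = id := by
          exact (hmono.range_inj strictMono_id).mp (by
            rw [σ.surjective.range_eq, Set.range_id])
        rw [h2]; rfl
    rw [hprod, smul_zero]
  · intro h; exact absurd (Finset.mem_univ _) h

end Pool.Agent.Helper78.Uct
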