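import Pool.Agent.Helper39.Uct.Goals2

/-!
# A noncommutative C*-algebra has a nonzero element of square zero

If `z * z = 0` implies `z = 0`, then for a self-adjoint `b` with positive and negative parts
`h`, `k` one has `h c k = 0 = k c h`, so `[b, c] = [h, c] - [k, c]` is an orthogonal
difference, and `h`, `k` are within `‖b‖ / 2` of a scalar.  Hence
`‖[b, c]‖² ≤ 2 · sup ‖[b', c]‖²` over `‖b'‖ ≤ ‖b‖ / 2`, which forces `[b, c] = 0`.
-/

open scoped ComplexOrder

namespace Pool.Agent.Helper78.Uct

open Pool.Agent.Helper39.Uct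

section

variable {A : Type} [NonUnitalCStarAlgebra A]

/-- The reduced hypothesis. -/
def Red (A : Type) [NonUnitalCStarAlgebra A] : Prop := ∀ z : A, z * z = 0 → z = 0

lemma sandwich (hA : Red A) (h k : Unitization ℂ A) (hk : k * h = 0) (c : A) :
    h * (c : Unitization ℂ A) * k = 0 := by
  set z := h * (c : Unitization ℂ A) * k with hzdef
  have hfst : z.fst = 0 := by
    simp [hzdef, Unitization.fst_mul]
  have hz : z = ((z.snd : A) : Unitization ℂ A) := by
    ext
    · simp [hfst]
    · simp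
  have hzz : z * z = 0 := by
    have : z * z = h * (c : Unitization ℂ A) * (k * h) * (c : Unitization ℂ A) * k := by
      simp only [hzdef]; noncomm_ring
    rw [this, hk]; simp
  have h2 : z.snd * z.snd = 0 := by
    apply Unitization.inr_injective (R := ℂ)
    rw [Unitization.inr_mul, ← hz, hzz, Unitization.inr_zero]
  have h3 := hA _ h2
  rw [hz, h3, Unitization.inr_zero]

lemma comm_bound (hA : Red A) (n : ℕ) : ∀ b : Unitization ℂ A, IsSelfAdjoint b → ∀ c : A,
    ‖b * (c : Unitization ℂ A) - (c : Unitization ℂ A) * b‖ ^ 2 ≤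
      4 * (1 / 2 : ℝ) ^ n * ‖b‖ ^ 2 * ‖c‖ ^ 2 := by
  induction n with
  | zero =>
    intro b _ c
    have h1 : ‖b * (c : Unitization ℂ A) - (c : Unitization ℂ A) * b‖ ≤ 2 * ‖b‖ * ‖c‖ := by
      calc ‖b * (c : Unitization ℂ A) - (c : Unitization ℂ A) * b‖
          ≤ ‖b * (c : Unitization ℂ A)‖ + ‖(c : Unitization ℂ A) * b‖ := norm_sub_le _ _
        _ ≤ ‖b‖ * ‖(c : Unitization ℂ A)‖ + ‖(c : Unitization ℂ A)‖ * ‖b‖ :=
            add_le_add (norm_mul_le _ _) (norm_mul_le _ _)
        _ = 2 * ‖b‖ * ‖c‖ := by rw [Unitization.norm_inr]; ring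
    calc ‖b * (c : Unitization ℂ A) - (c : Unitization ℂ A) * b‖ ^ 2
        ≤ (2 * ‖b‖ * ‖c‖) ^ 2 := by gcongr
      _ = 4 * (1 / 2 : ℝ) ^ 0 * ‖b‖ ^ 2 * ‖c‖ ^ 2 := by ring
  | succ n ih =>
    intro b hb c
    set C : Unitization ℂ A := (c : Unitization ℂ A) with hC
    set h : Unitization ℂ A := cfc (fun t : ℝ => max t 0) b with hh
    set k : Unitization ℂ A := cfc (fun t : ℝ => max (-t) 0) b with hk
    have hsub : b = h - k := by
      rw [hh, hk, ← cfc_sub (fun t : ℝ => max t 0) (fun t : ℝ => max (-t) 0) b]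
      have : (fun t : ℝ => max t 0 - max (-t) 0) = id := by
        funext t
        rcases le_total t 0 with ht | ht
        · simp [ht]
        · simp [ht]
      rw [this, cfc_id ℝ b]
    have hhk : h * k = 0 := by
      rw [hh, hk, ← cfc_mul (fun t : ℝ => max t 0) (fun t : ℝ => max (-t) 0) b]
      have : (fun t : ℝ => max t 0 * max (-t) 0) = fun _ => 0 := by
        funext t
        rcases le_total t 0 with ht | ht
        · simp [ht]
        · simp [ht]
      rw [this, cfc_const_zero]
    have hkh : k * h = 0 := by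
      rw [hh, hk, ← cfc_mul (fun t : ℝ => max (-t) 0) (fun t : ℝ => max t 0) b]
      have : (fun t : ℝ => max (-t) 0 * max t 0) = fun _ => 0 := by
        funext t
        rcases le_total t 0 with ht | ht
        · simp [ht]
        · simp [ht]
      rw [this, cfc_const_zero]
    have hsah : IsSelfAdjoint h := IsSelfAdjoint.cfc
    have hsak : IsSelfAdjoint k := IsSelfAdjoint.cfc
    -- shifted norms
    have key : ∀ f : ℝ → ℝ, Continuous f → (∀ t : ℝ, |t| ≤ ‖b‖ → |f t - ‖b‖ / 2| ≤ ‖b‖ / 2) →
        ‖(cfc f b) * C - C * (cfc f b)‖ ^ 2 ≤ 4 * (1 / 2 : ℝ) ^ n * (‖b‖ / 2) ^ 2 * ‖c‖ ^ 2 := by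
      intro f hf hft
      set b' : Unitization ℂ A := cfc (fun t : ℝ => f t - ‖b‖ / 2) b with hb'
      have hb'sa : IsSelfAdjoint b' := IsSelfAdjoint.cfc
      have hb'n : ‖b'‖ ≤ ‖b‖ / 2 := by
        rw [hb']
        apply norm_cfc_le (by positivity)
        intro t ht
        apply hft
        exact spectrum.norm_le_norm_of_mem ht
      have hb'eq : b' = cfc f b - algebraMap ℝ (Unitization ℂ A) (‖b‖ / 2) := by
        rw [hb', cfc_sub f (fun _ : ℝ => ‖b‖ / 2) b, cfc_const (‖b‖ / 2) b]
      have hcomm : b' * C - C * b' = cfc f b * C - C * cfc f b := by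
        rw [hb'eq, sub_mul, mul_sub, Algebra.commutes (‖b‖ / 2) C]
        abel
      rw [← hcomm]
      refine (ih b' hb'sa c).trans ?_
      gcongr
    have hX := key (fun t => max t 0) (by fun_prop) (by
      intro t ht
      rw [abs_le] at ht ⊢
      constructor
      · have := le_max_right t 0
        linarith [norm_nonneg b]
      · have : max t 0 ≤ ‖b‖ := max_le ht.2 (norm_nonneg b)
        linarith)
    have hY := key (fun t => max (-t) 0) (by fun_prop) (by
      intro t ht
      rw [abs_le] at ht ⊢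
      constructor
      · have := le_max_right (-t) 0
        linarith [norm_nonneg b]
      · have : max (-t) 0 ≤ ‖b‖ := max_le (by linarith [ht.1]) (norm_nonneg b)
        linarith)
    rw [← hh] at hX
    rw [← hk] at hY
    set X := h * C - C * h with hXd
    set Y := k * C - C * k with hYd
    have hbXY : b * C - C * b = X - Y := by
      calc b * C - C * b = (h - k) * C - C * (h - k) := by rw [← hsub]
        _ = X - Y := by rw [hXd, hYd]; noncomm_ring
    have hXs : star X = star C * h - h * star C := by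
      rw [hXd, star_sub, star_mul, star_mul, hsah.star_eq]
    have hYs : star Y = star C * k - k * star C := by
      rw [hYd, star_sub, star_mul, star_mul, hsak.star_eq]
    have hCs : star C = ((star c : A) : Unitization ℂ A) := by
      rw [hC, Unitization.inr_star]
    have hCC : star C * C = ((star c * c : A) : Unitization ℂ A) := by
      rw [hC, Unitization.inr_mul, Unitization.inr_star]
    have z1 : star X * Y = 0 := by
      have e1 : h * C * k = 0 := sandwich hA h k hkh c
      have e2 : h * star C * k = 0 := by rw [hCs]; exact sandwich hA h k hkh _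
      have e3 : h * (star C * C) * k = 0 := by rw [hCC]; exact sandwich hA h k hkh _
      calc star X * Y = (star C * h - h * star C) * (k * C - C * k) := by rw [hXs]
        _ = star C * (h * k) * C - star C * (h * C * k) - (h * star C * k) * C
            + h * (star C * C) * k := by noncomm_ring
        _ = 0 := by rw [hhk, e1, e2, e3]; simp
    have z2 : star Y * X = 0 := by
      have e1 : k * C * h = 0 := sandwich hA k h hhk c
      have e2 : k * star C * h = 0 := by rw [hCs]; exact sandwich hA k h hhk _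
      have e3 : k * (star C * C) * h = 0 := by rw [hCC]; exact sandwich hA k h hhk _
      calc star Y * X = (star C * k - k * star C) * (h * C - C * h) := by rw [hYs]
        _ = star C * (k * h) * C - star C * (k * C * h) - (k * star C * h) * C
            + k * (star C * C) * h := by noncomm_ring
        _ = 0 := by rw [hkh, e1, e2, e3]; simp
    have hmain : ‖X - Y‖ ^ 2 ≤ ‖X‖ ^ 2 + ‖Y‖ ^ 2 := by
      have e : star (X - Y) * (X - Y) = star X * X + star Y * Y := by
        calc star (X - Y) * (X - Y) = star X * X - star X * Y - star Y * X + star Y * Y := by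
              rw [star_sub]; noncomm_ring
          _ = _ := by rw [z1, z2]; simp
      calc ‖X - Y‖ ^ 2 = ‖star (X - Y) * (X - Y)‖ := by
            rw [CStarRing.norm_star_mul_self, sq]
        _ = ‖star X * X + star Y * Y‖ := by rw [e]
        _ ≤ ‖star X * X‖ + ‖star Y * Y‖ := norm_add_le _ _
        _ = ‖X‖ ^ 2 + ‖Y‖ ^ 2 := by
            rw [CStarRing.norm_star_mul_self, CStarRing.norm_star_mul_self, sq, sq]
    rw [hbXY]
    calc ‖X - Y‖ ^ 2 ≤ ‖X‖ ^ 2 + ‖Y‖ ^ 2 := hmain
      _ ≤ 4 * (1 / 2 : ℝ) ^ n * (‖b‖ / 2) ^ 2 * ‖c‖ ^ 2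
          + 4 * (1 / 2 : ℝ) ^ n * (‖b‖ / 2) ^ 2 * ‖c‖ ^ 2 := add_le_add hX hY
      _ = 4 * (1 / 2 : ℝ) ^ (n + 1) * ‖b‖ ^ 2 * ‖c‖ ^ 2 := by ring

lemma comm_sa (hA : Red A) (a : A) (ha : IsSelfAdjoint a) (c : A) : a * c = c * a := by
  have hb : IsSelfAdjoint (a : Unitization ℂ A) := by
    rw [IsSelfAdjoint, ← Unitization.inr_star, ha.star_eq]
  set x := ‖(a : Unitization ℂ A) * (c : Unitization ℂ A) -
    (c : Unitization ℂ A) * (a : Unitization ℂ A)‖ ^ 2 with hx
  have hle : ∀ n : ℕ, x ≤ 4 * (1 / 2 : ℝ) ^ n * ‖(a : Unitization ℂ A)‖ ^ 2 * ‖c‖ ^ 2 :=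
    fun n => comm_bound hA n _ hb c
  have hlim : Filter.Tendsto
      (fun n : ℕ => 4 * (1 / 2 : ℝ) ^ n * ‖(a : Unitization ℂ A)‖ ^ 2 * ‖c‖ ^ 2)
      Filter.atTop (nhds 0) := by
    have h1 : Filter.Tendsto (fun n : ℕ => (1 / 2 : ℝ) ^ n) Filter.atTop (nhds 0) :=
      tendsto_pow_atTop_nhds_zero_of_lt_one (by norm_num) (by norm_num)
    have h2 := ((h1.const_mul 4).mul_const (‖(a : Unitization ℂ A)‖ ^ 2)).mul_const (‖c‖ ^ 2)
    simpa using h2
  have hx0 : x ≤ 0 := ge_of_tendsto' hlim hle
  have hx1 : x = 0 := le_antisymm hx0 (by positivity)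
  have h3 : (a : Unitization ℂ A) * (c : Unitization ℂ A) -
    (c : Unitization ℂ A) * (a : Unitization ℂ A) = 0 := by
    have := pow_eq_zero_iff (two_ne_zero) |>.mp (hx ▸ hx1 : _ = (0 : ℝ))
    exact norm_eq_zero.mp this
  have h4 : ((a * c : A) : Unitization ℂ A) = ((c * a : A) : Unitization ℂ A) := by
    rw [Unitization.inr_mul, Unitization.inr_mul]
    exact sub_eq_zero.mp h3
  exact Unitization.inr_injective h4

end

theorem nl : S_NL := by
  intro A _ ⟨x, y, hxy⟩
  by_contra hcon
  have hA : Red A := by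
    intro z hz
    by_contra hz0
    exact hcon ⟨z, hz0, hz⟩
  apply hxy
  have h1 := comm_sa hA (realPart x : A) (realPart x).2 y
  have h2 := comm_sa hA (imaginaryPart x : A) (imaginaryPart x).2 y
  have hx := realPart_add_I_smul_imaginaryPart x
  calc x * y = ((realPart x : A) + Complex.I • (imaginaryPart x : A)) * y := by rw [hx]
    _ = y * ((realPart x : A) + Complex.I • (imaginaryPart x : A)) := by
        rw [add_mul, mul_add, h1, smul_mul_assoc, h2, mul_smul_comm]
    _ = y * x := by rw [hx]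

end Pool.Agent.Helper78.Uct
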